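import Mathlib

set_option autoImplicit false

/-!
# All solutions of the binary-tree min-max recursive distributional equation
-/

namespace Pool.Agent.Results.MP_e9a5a5_pr.AllFixedPoints

open Filter Topology

/-- `F` is the cumulative distribution function of a probability distribution on `ℝ`. -/
structure IsCDF (F : ℝ → ℝ) : Prop where
  mono : Monotone F
  right_cont : ∀ x, ContinuousWithinAt F (Set.Ici x) x
  tendsto_bot : Tendsto F atBot (𝓝 0)
  tendsto_top : Tendsto F atTop (𝓝 1)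

/-- The convolution `μ * F` with the uniform distribution `μ` on `{-1, 1}`. -/
noncomputable def conv (F : ℝ → ℝ) : ℝ → ℝ := fun x => (F (x - 1) + F (x + 1)) / 2

/-- One max step, `Φ F = (μ * F)²`. -/
noncomputable def maxStep (F : ℝ → ℝ) : ℝ → ℝ := fun x => conv F x ^ 2

/-- One min step, `Φ' F = 1 - (1 - μ * F)²`. -/
noncomputable def minStep (F : ℝ → ℝ) : ℝ → ℝ := fun x => 1 - (1 - conv F x) ^ 2

/-- `Ψ = Φ ∘ Φ'`. The solutions of the recursive distributional equation are the distribution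
functions `F` with `Ψ F = F`. -/
noncomputable def Psi (F : ℝ → ℝ) : ℝ → ℝ := maxStep (minStep F)

/-- `h(p) = 2 √p - p`. -/
noncomputable def h (p : ℝ) : ℝ := 2 * √p - p

lemma Psi_apply (F : ℝ → ℝ) (x : ℝ) : Psi F x =
    (1 - (1 - (F (x - 2) + F x) / 2) ^ 2 / 2 - (1 - (F x + F (x + 2)) / 2) ^ 2 / 2) ^ 2 := by
  unfold Psi maxStep minStep conv
  have e1 : x - 1 - 1 = x - 2 := by ring
  have e2 : x - 1 + 1 = x := by ring
  have e3 : x + 1 - 1 = x := by ring
  have e4 : x + 1 + 1 = x + 2 := by ring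
  dsimp only
  rw [e1, e2, e3, e4]
  ring

/-- `t(y) = 1 - (F(y) + F(y + 2)) / 2` -/
noncomputable def tt (F : ℝ → ℝ) (y : ℝ) : ℝ := 1 - (F y + F (y + 2)) / 2

/-- the deviation `E(y) = t(y - 2)² - (1 - F(y))` -/
noncomputable def E (F : ℝ → ℝ) (y : ℝ) : ℝ := tt F (y - 2) ^ 2 - (1 - F y)

/-- `δ(y) = 1 - √F(y) - t(y)` -/
noncomputable def dl (F : ℝ → ℝ) (y : ℝ) : ℝ := 1 - √(F y) - tt F y

lemma IsCDF.nonneg {F : ℝ → ℝ} (hF : IsCDF F) (x : ℝ) : 0 ≤ F x :=
  hF.mono.le_of_tendsto hF.tendsto_bot x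

lemma IsCDF.le_one {F : ℝ → ℝ} (hF : IsCDF F) (x : ℝ) : F x ≤ 1 :=
  hF.mono.ge_of_tendsto hF.tendsto_top x

lemma tt_nonneg {F : ℝ → ℝ} (hF : IsCDF F) (y : ℝ) : 0 ≤ tt F y := by
  unfold tt
  have := hF.le_one y
  have := hF.le_one (y + 2)
  linarith

lemma tt_le_one {F : ℝ → ℝ} (hF : IsCDF F) (y : ℝ) : tt F y ≤ 1 := by
  unfold tt
  have := hF.nonneg y
  have := hF.nonneg (y + 2)
  linarith

lemma sqrt_eq {F : ℝ → ℝ} (hF : IsCDF F) (hfix : Psi F = F) (y : ℝ) :
    √(F y) = 1 - tt F (y - 2) ^ 2 / 2 - tt F y ^ 2 / 2 := by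
  have e : F y = (1 - tt F (y - 2) ^ 2 / 2 - tt F y ^ 2 / 2) ^ 2 := by
    conv_lhs => rw [← hfix, Psi_apply]
    unfold tt
    have e1 : y - 2 + 2 = y := by ring
    rw [e1]
  have h1 := tt_nonneg hF (y - 2)
  have h2 := tt_le_one hF (y - 2)
  have h3 := tt_nonneg hF y
  have h4 := tt_le_one hF y
  rw [e, Real.sqrt_sq (by nlinarith)]

lemma E_eq {F : ℝ → ℝ} (hF : IsCDF F) (hfix : Psi F = F) (y : ℝ) :
    E F y = dl F y * (1 - √(F y) + tt F y) := by
  have h1 := sqrt_eq hF hfix y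
  have h2 : √(F y) ^ 2 = F y := Real.sq_sqrt (hF.nonneg y)
  unfold E dl
  have h3 : tt F (y - 2) ^ 2 = 2 * (1 - √(F y)) - tt F y ^ 2 := by linarith
  rw [h3]
  linear_combination (-1 : ℝ) * h2

lemma E_add_two {F : ℝ → ℝ} (hF : IsCDF F) (y : ℝ) :
    E F (y + 2) = dl F y * (1 - tt F y + √(F y)) := by
  have h2 : √(F y) ^ 2 = F y := Real.sq_sqrt (hF.nonneg y)
  unfold E dl
  have e : y + 2 - 2 = y := by ring
  have h3 : F (y + 2) = 2 - 2 * tt F y - F y := by unfold tt; ring
  rw [e, h3]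
  linear_combination h2

/-- a zero of the deviation gives the relation with `h` -/
lemma dl_eq_zero {F : ℝ → ℝ} (hF : IsCDF F) (hfix : Psi F = F) {y : ℝ} (hE : E F y = 0) :
    dl F y = 0 := by
  rw [E_eq hF hfix] at hE
  rcases mul_eq_zero.1 hE with h | h
  · exact h
  · have h1 : √(F y) ≤ 1 := Real.sqrt_le_one.2 (hF.le_one y)
    have h2 := tt_nonneg hF y
    unfold dl
    linarith

lemma tendsto_tt {F : ℝ → ℝ} (hF : IsCDF F) : Tendsto (tt F) atBot (𝓝 1) := by
  have h1 : Tendsto (fun y : ℝ => F (y + 2)) atBot (𝓝 0) :=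
    hF.tendsto_bot.comp (tendsto_atBot_add_const_right _ _ tendsto_id)
  have h2 := ((hF.tendsto_bot.add h1).div_const 2).const_sub 1
  simp only [add_zero, zero_div, sub_zero] at h2
  exact h2

lemma tendsto_E {F : ℝ → ℝ} (hF : IsCDF F) : Tendsto (E F) atBot (𝓝 0) := by
  have h1 : Tendsto (fun y : ℝ => tt F (y - 2)) atBot (𝓝 1) :=
    (tendsto_tt hF).comp (tendsto_atBot_add_const_right _ (-2) tendsto_id)
  have h2 : Tendsto (E F) atBot (𝓝 (1 ^ 2 - (1 - 0))) :=
    (h1.pow 2).sub (hF.tendsto_bot.const_sub 1)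
  have e : (1 : ℝ) ^ 2 - (1 - 0) = 0 := by norm_num
  rwa [e] at h2

lemma E_zero_bot {F : ℝ → ℝ} (hF : IsCDF F) (hfix : Psi F = F) :
    ∃ M : ℝ, ∀ y ≤ M, E F y = 0 := by
  -- near minus infinity the deviation does not increase in absolute value
  have h1 : ∀ᶠ y in atBot, √(F y) ≤ tt F y := by
    have hs : Tendsto (fun y => √(F y)) atBot (𝓝 0) := by
      have h0 : Tendsto (fun y => √(F y)) atBot (𝓝 (√0)) :=
        (Real.continuous_sqrt.tendsto 0).comp hF.tendsto_bot
      rwa [Real.sqrt_zero] at h0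
    have a := hs.eventually (gt_mem_nhds (show (0 : ℝ) < 1 / 2 by norm_num))
    have b := (tendsto_tt hF).eventually (lt_mem_nhds (show (1 / 2 : ℝ) < 1 by norm_num))
    filter_upwards [a, b] with y h1 h2
    linarith
  obtain ⟨M, hM⟩ := eventually_atBot.1 h1
  refine ⟨M, fun y hy => ?_⟩
  have hstep : ∀ z ≤ M, |E F (z + 2)| ≤ |E F z| := by
    intro z hz
    have h2 := hM z hz
    rw [E_eq hF hfix z, E_add_two hF z, abs_mul, abs_mul]
    apply mul_le_mul_of_nonneg_left _ (abs_nonneg _)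
    have h3 : √(F z) ≤ 1 := Real.sqrt_le_one.2 (hF.le_one z)
    have h4 := tt_le_one hF z
    have h5 := tt_nonneg hF z
    have h6 := Real.sqrt_nonneg (F z)
    rw [abs_of_nonneg (by linarith), abs_of_nonneg (by linarith)]
    linarith
  have hind : ∀ n : ℕ, |E F y| ≤ |E F (y - 2 * n)| := by
    intro n
    induction n with
    | zero => simp
    | succ n ih =>
      refine ih.trans ?_
      have hz : y - 2 * ((n + 1 : ℕ) : ℝ) ≤ M := by
        have : (0 : ℝ) ≤ ((n + 1 : ℕ) : ℝ) := Nat.cast_nonneg _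
        linarith
      have h7 := hstep _ hz
      have e : y - 2 * ((n + 1 : ℕ) : ℝ) + 2 = y - 2 * n := by push_cast; ring
      rwa [e] at h7
  have hlim : Tendsto (fun n : ℕ => |E F (y - 2 * n)|) atTop (𝓝 0) := by
    have hb : Tendsto (fun n : ℕ => y - 2 * (n : ℝ)) atTop atBot := by
      have h8 : Tendsto (fun n : ℕ => 2 * (n : ℝ)) atTop atTop :=
        tendsto_natCast_atTop_atTop.const_mul_atTop (by norm_num)
      have h9 := tendsto_atBot_add_const_left _ y (tendsto_neg_atTop_atBot.comp h8)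
      refine h9.congr fun n => ?_
      simp only [Function.comp]
      ring
    have := ((tendsto_E hF).comp hb).abs
    simpa using this
  have h0 : |E F y| ≤ 0 := ge_of_tendsto' hlim hind
  exact abs_eq_zero.1 (le_antisymm h0 (abs_nonneg _))

lemma E_zero {F : ℝ → ℝ} (hF : IsCDF F) (hfix : Psi F = F) (y : ℝ) : E F y = 0 := by
  obtain ⟨M, hM⟩ := E_zero_bot hF hfix
  have hind : ∀ n : ℕ, ∀ z : ℝ, z ≤ M + 2 * n → E F z = 0 := by
    intro n
    induction n with
    | zero => intro z hz; exact hM z (by simpa using hz)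
    | succ n ih =>
      intro z hz
      have h1 := ih (z - 2) (by push_cast at hz; linarith)
      have h2 := dl_eq_zero hF hfix h1
      have h3 := E_add_two hF (z - 2)
      rw [h2, zero_mul] at h3
      have e : z - 2 + 2 = z := by ring
      rwa [e] at h3
  obtain ⟨n, hn⟩ := exists_nat_ge ((y - M) / 2)
  exact hind n y (by linarith)

/-- **Theorem.** A distribution function `F` on `ℝ` solves the recursive distributional equation
`Ψ F = F` if and only if `F(x + 2) = h(F(x))` for all real `x`. -/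
theorem result (F : ℝ → ℝ) (hF : IsCDF F) : Psi F = F ↔ ∀ x, F (x + 2) = h (F x) := by
  constructor
  · intro hfix x
    have h1 := dl_eq_zero hF hfix (E_zero hF hfix x)
    unfold dl tt at h1
    unfold h
    linarith
  · intro hh
    funext x
    rw [Psi_apply]
    have h1 := hh x
    have h2 := hh (x - 2)
    have e : x - 2 + 2 = x := by ring
    rw [e] at h2
    unfold h at h1 h2
    have s1 : √(F x) ^ 2 = F x := Real.sq_sqrt (hF.nonneg x)
    have s2 : √(F (x - 2)) ^ 2 = F (x - 2) := Real.sq_sqrt (hF.nonneg _)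
    have e1 : 1 - (F (x - 2) + F x) / 2 = 1 - √(F (x - 2)) := by linarith
    have e2 : 1 - (F x + F (x + 2)) / 2 = 1 - √(F x) := by linarith
    have e3 : (1 - √(F (x - 2))) ^ 2 = 1 - F x := by
      linear_combination s2 + h2
    have e4 : (1 - √(F x)) ^ 2 = 1 - 2 * √(F x) + F x := by
      linear_combination s1
    rw [e1, e2, e3, e4]
    linear_combination s1

end Pool.Agent.Results.MP_e9a5a5_pr.AllFixedPoints
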